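import Mathlib
import Pool.Agent.H66.TokModel
import Pool.Agent.H66.TokStrategy
import Pool.Agent.H66.TokMain
import Pool.Agent.H66.TokGreedy

/-!
Online colouring of tokens on the real line: `f(w) ≥ ⌊(8w+1)/5⌋` for every `w`.
-/

namespace Pool.Agent.Results.MP_7950b2_co.EightFifths

open H66Tok

/-- For every `w`, Spoiler can force `⌊(8w+1)/5⌋` colours:  the value `f w` of the online
colouring game of tokens on the real line is at least `⌊(8w+1)/5⌋`. -/
theorem result (w : ℕ) : (8 * w + 1) / 5 ≤ f w := by
  rcases Nat.eq_zero_or_pos w with hw | hw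
  · subst hw; simp
  · by_contra hlt
    obtain ⟨σ, hσ⟩ := exists_handles w
    exact no_handles (spWin_init w hw) σ (hσ.mono (by omega))

end Pool.Agent.Results.MP_7950b2_co.EightFifths
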