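import Mathlib
import Pool.Agent.H66.TokModel
import Pool.Agent.H62.TokVModel
import Pool.Agent.H62.TokVReal
import Pool.Agent.H62.TokVExact
import Pool.Agent.H62.TokVLin

/-!
Online colouring of tokens on the real line: every strategy that is nearly greedy needs nearly
`2w` colours, and saving colours needs many early openings.
-/

namespace Pool.Agent.Results.MP_7950b2_co.NearlyGreedy

open H66Tok H62Tok

/-- For all `w` and `h` and every strategy `σ` that colours properly there is a legal play in
which (number of colours used) + (number of `h`-early openings) is at least `2w - 6h - 2`, and at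
least `2w - 1` if `h = 0`. An `h`-early opening is a token that gets a new colour although more
than `h` used colours are usable for it. -/
theorem result (w h : ℕ) (σ : Strategy) (hσ : Proper w σ) :
    ∃ l : List ℝ, Legal w l ∧
      2 * w ≤ (used (history σ l)).card + early h σ l + (6 * h + min h 1 + 1) := by
  rcases Nat.eq_zero_or_pos h with hh | hh
  · subst hh
    obtain ⟨l, h1, h2⟩ := exists_play hσ (spV_zero w)
    exact ⟨l, h1, by omega⟩
  · obtain ⟨l, h1, h2⟩ := exists_play hσ (spV_lin w h)
    refine ⟨l, h1, ?_⟩
    have h3 : max h 1 = h := max_eq_left hh
    rw [h3] at h2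
    omega

end Pool.Agent.Results.MP_7950b2_co.NearlyGreedy
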